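import Mathlib

set_option autoImplicit false

namespace Pool.Agent.FS.K6K3

open Finset

/-- Digit `i` (shifted by two) of the `a`-th lattice point; points 52 to 57 are the vertices. -/
def dg (a i : ℕ) : ℕ :=
  (0x1133322223222232222322220133103311231132113343113122321232213222341113222312232123223321123221322231223233121223212322132223331112222122221222212222004421334222123333222422114332322332224211343223232322332224113332222322223222232222 >>> (4 * (4 * a + i))) % 16 % 5

/-- Linear code of the `a`-th lattice point. -/
def lc (a : ℕ) : ℕ :=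
  (0x3489416b967166966806f2f733f347348c618f09389409419d93e06b06b86b999139862067067198939061866066998838f61765f667668028621c1a39999270a35194a6c267a3499426ba67266a3489416b9671669668 >>> (12 * a)) % 4096

/-- The nine vectors of the sum of squares. -/
def sv (j a : ℕ) : ℤ :=
  (((0x21211f1f1f21211f1f1f21211f1f1f1f1f1f21211f1f1f21211f1f1f21211f202020202020202020202020202020202020202020202020202020202020202020202020202020202020202020202020202020201f1e1f1e1e1f20202021202020222120202022222120202020202020202020202020202020202020202020202020202020202020210a210a0a211e1e1e211e1e1e0a211e1e1e0a0a21202020202020202020202020202020202020202020202020202020202020201f2220201e2121201f2021201f202021201f2020202020202020202020202020202020202020202020202020202020202020202021201f1e22201f2120201f212020201f212020202020202020202020202020202020202020202020202020202020202020202020201e2122201f201f2120201f212020201f21202020202020202020202020202020202020202020202020202020202020202020202020202020202121211f20202022201f1f1f201e21202020202020202020202020202020202020202020202020202020202020202020202020201f1f1f21212121201f2020201e222020202020202020202020202020202020202020202020202020202020202020202020202020202020201f1f1f1e2121212122201f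 >>> (8 * (52 * j + a))) % 256 : ℕ) : ℤ) - 32

/-- Their weights. -/
def sw (j : ℕ) : ℕ := if j < 6 then 4 else if j = 7 then 2 else 1

/-- A sum over an initial segment, by the recursor. -/
def addUp (n : ℕ) (f : ℕ → ℤ) : ℤ := Nat.rec 0 (fun k acc => acc + f k) n

theorem addUp_eq (n : ℕ) (f : ℕ → ℤ) : addUp n f = ∑ k ∈ range n, f k := by
  induction n with
  | zero => rfl
  | succ n ih => rw [Finset.sum_range_succ, ← ih]; rfl

/-- The Gram matrix. -/
def gram (a b : ℕ) : ℤ := addUp 9 fun j => (sw j : ℤ) * (sv j a * sv j b)

theorem lc_eq : ∀ a < 58, lc a = dg a 0 + 9 * dg a 1 + 81 * dg a 2 + 729 * dg a 3 := by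
  decide +kernel

/-- A conditional sum over an initial segment, by the recursor. -/
def addIf (n : ℕ) (c : ℕ → Bool) (f : ℕ → ℤ) (z : ℤ) : ℤ :=
  Nat.rec z (fun k acc => bif c k then acc + f k else acc) n

theorem addIf_eq (n : ℕ) (c : ℕ → Bool) (f : ℕ → ℤ) (z : ℤ) :
    addIf n c f z = z + ∑ k ∈ range n, (if c k = true then f k else 0) := by
  induction n with
  | zero => simp [addIf]
  | succ n ih =>
    have h : addIf (n + 1) c f z = bif c n then addIf n c f z + f n else addIf n c f z := rfl
    rw [h, ih, Finset.sum_range_succ]
    cases c n <;> simp [add_assoc]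

/-- Sum of the Gram matrix along a difference. -/
def along (κ : ℕ) : ℤ :=
  addUp 52 fun a => addIf 52 (fun b => Nat.beq (lc a + 3280) (lc b + κ)) (gram a) 0

theorem along_eq (κ : ℕ) : along κ =
    ∑ a ∈ range 52, ∑ b ∈ range 52, (if lc a + 3280 = lc b + κ then gram a b else 0) := by
  rw [along, addUp_eq]
  refine Finset.sum_congr rfl fun a _ => ?_
  rw [addIf_eq, zero_add]
  refine Finset.sum_congr rfl fun b _ => ?_
  simp only [Nat.beq_eq]

/-- The differences along which the Gram matrix sums to zero. -/
def kt (i : ℕ) : ℕ :=
  (0x18c2163a15f215ea15e915a215a11599155113b2136a136213611322131a131913121311131012d212d112ca12c812c112c012821281128012791278127012311230122811e0109210911089104a10491042104010391038100210010ffa0ff80ff20fef0fe90fe80fe70fb20fb10fb00faa0fa70fa10f9f0f980f970f610f600f590f570f500f4f0f100f080f070db90d720d710d700d690d680d600d2a0d290d280d220d1f0d190d170d100d0f0ce20ce10ce00cda0cd70cd20cce0cc90cc60cc00cbf0cbe0c910c900c890c870c810c7e0c780c770c760c400c380c370c300c2f0c2e0be70a990a980a900a510a500a490a470a400a3f0a090a080a0109ff09f909f609f009ef09ee09b909b809b709b109ae09a809a6099f099e096809670960095e095709560917090f090e07c007780770076f0730072807270720071f071e06e006df06d806d606cf06ce0690068f068e06870686067e063f063e063605ee044f040703ff03fe03b703b603ae036600de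 >>> (16 * i)) % 65536

theorem zero_chk0 : ∀ i < 40, along (kt (0 + i)) = 0 := by
  decide +kernel

theorem zero_chk1 : ∀ i < 40, along (kt (40 + i)) = 0 := by
  decide +kernel

theorem zero_chk2 : ∀ i < 40, along (kt (80 + i)) = 0 := by
  decide +kernel

theorem zero_chk3 : ∀ i < 40, along (kt (120 + i)) = 0 := by
  decide +kernel

theorem zero_chk4 : ∀ i < 26, along (kt (160 + i)) = 0 := by
  decide +kernel

theorem zero_chk (i : ℕ) (hi : i < 186) : along (kt i) = 0 := by
  by_cases h0 : i < 40
  · have h := zero_chk0 (i - 0) (by omega)
    rwa [show 0 + (i - 0) = i by omega] at h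
  by_cases h1 : i < 80
  · have h := zero_chk1 (i - 40) (by omega)
    rwa [show 40 + (i - 40) = i by omega] at h
  by_cases h2 : i < 120
  · have h := zero_chk2 (i - 80) (by omega)
    rwa [show 80 + (i - 80) = i by omega] at h
  by_cases h3 : i < 160
  · have h := zero_chk3 (i - 120) (by omega)
    rwa [show 120 + (i - 120) = i by omega] at h
  by_cases h4 : i < 186
  · have h := zero_chk4 (i - 160) (by omega)
    rwa [show 160 + (i - 160) = i by omega] at h
  omega

theorem link_chk : ∀ a < 52, ∀ b < 52, gram a b = 0 ∨
    (∃ x < 6, ∃ y < 6, lc a + lc (52 + y) = lc b + lc (52 + x)) ∨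
    ∃ i < 186, lc a + 3280 - lc b = kt i := by
  decide +kernel

theorem support_chk (a : ℕ) (ha : a < 52) (b : ℕ) (hb : b < 52) : gram a b = 0 ∨
    (∃ x < 6, ∃ y < 6, lc a + lc (52 + y) = lc b + lc (52 + x)) ∨
    along (lc a + 3280 - lc b) = 0 := by
  rcases link_chk a ha b hb with h | h | ⟨i, hi, h⟩
  · exact Or.inl h
  · exact Or.inr (Or.inl h)
  · exact Or.inr (Or.inr (h ▸ zero_chk i hi))

theorem trace_chk : along 3280 = 3421 := by
  decide +kernel

theorem total_chk :
    addUp 9 (fun j => (sw j : ℤ) * (addUp 52 (sv j) * addUp 52 (sv j))) = 20785 := by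
  decide +kernel

end Pool.Agent.FS.K6K3
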