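import Mathlib
import Pool.Agent.Lib.MP_571698_co.Abstract
import Pool.Agent.FS.K6K3.Cert

set_option autoImplicit false

namespace Pool.Agent.FS.K6K3

open Finset Filter Topology
open Pool.Agent.Lib.MP_571698_co

/-- Points of the lattice spanned by six vertices with the relation a + b + c = x + y + z. -/
abbrev Lat : Type := Fin 4 → ℤ

/-- The `a`-th point of the table. -/
def pnt (a : ℕ) : Lat := fun i => (dg a i : ℤ) - 2

/-- Radix nine functional. -/
def rad (δ : Lat) : ℤ := δ 0 + 9 * δ 1 + 81 * δ 2 + 729 * δ 3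

theorem rad_sub (x y : Lat) : rad (x - y) = rad x - rad y := by
  simp only [rad, Pi.sub_apply]; ring

theorem dg_le (a i : ℕ) : dg a i ≤ 4 := by
  unfold dg; omega

theorem rad_inj {δ ε : Lat} (h1 : ∀ i, |δ i| ≤ 4) (h2 : ∀ i, |ε i| ≤ 4) (h : rad δ = rad ε) :
    δ = ε := by
  have a0 := abs_le.mp (h1 0)
  have a1 := abs_le.mp (h1 1)
  have a2 := abs_le.mp (h1 2)
  have a3 := abs_le.mp (h1 3)
  have b0 := abs_le.mp (h2 0)
  have b1 := abs_le.mp (h2 1)
  have b2 := abs_le.mp (h2 2)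
  have b3 := abs_le.mp (h2 3)
  simp only [rad] at h
  have e0 : δ 0 = ε 0 := by omega
  have e1 : δ 1 = ε 1 := by omega
  have e2 : δ 2 = ε 2 := by omega
  have e3 : δ 3 = ε 3 := by omega
  funext i
  fin_cases i
  exacts [e0, e1, e2, e3]

theorem near (a b : ℕ) (i : Fin 4) : |(pnt a - pnt b) i| ≤ 4 := by
  have h1 := dg_le a i
  have h2 := dg_le b i
  simp only [abs_le, Pi.sub_apply, pnt]
  omega

theorem rad_pnt {a : ℕ} (ha : a < 58) : rad (pnt a) = lc a - 1640 := by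
  rw [lc_eq a ha]
  simp only [rad, pnt]
  have e0 : ((0 : Fin 4) : ℕ) = 0 := rfl
  have e1 : ((1 : Fin 4) : ℕ) = 1 := rfl
  have e2 : ((2 : Fin 4) : ℕ) = 2 := rfl
  have e3 : ((3 : Fin 4) : ℕ) = 3 := rfl
  rw [e0, e1, e2, e3]
  push_cast
  ring

theorem lc_le {a : ℕ} (ha : a < 58) : lc a ≤ 3280 := by
  rw [lc_eq a ha]
  have h0 := dg_le a 0
  have h1 := dg_le a 1
  have h2 := dg_le a 2
  have h3 := dg_le a 3
  omega

/-- The positive definite function on the lattice. -/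
def pdf (δ : Lat) : ℤ := ∑ a ∈ range 52, ∑ b ∈ range 52, if δ = pnt a - pnt b then gram a b else 0

theorem pdf_eq {δ : Lat} (hδ : ∀ i, |δ i| ≤ 4) (κ : ℕ) (hκ : rad δ + 3280 = κ) :
    pdf δ = along κ := by
  rw [along_eq, pdf]
  refine Finset.sum_congr rfl fun a ha => Finset.sum_congr rfl fun b hb => ?_
  have ha' := Finset.mem_range.mp ha
  have hb' := Finset.mem_range.mp hb
  have h1 : rad (pnt a - pnt b) = (lc a : ℤ) - lc b := by
    rw [rad_sub, rad_pnt (by omega), rad_pnt (by omega)]; ring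
  refine if_congr ⟨fun h => ?_, fun h => rad_inj hδ (near a b) ?_⟩ rfl rfl
  · rw [h, h1] at hκ; omega
  · rw [h1]; omega

theorem pdf_zero : pdf 0 = 3421 := by
  rw [pdf_eq (by simp) 3280 (by simp [rad]), trace_chk]

theorem pdf_support {δ : Lat} (h : pdf δ ≠ 0) :
    ∃ x < 6, ∃ y < 6, δ = pnt (52 + x) - pnt (52 + y) := by
  obtain ⟨a, ha, h1⟩ := Finset.exists_ne_zero_of_sum_ne_zero h
  obtain ⟨b, hb, h2⟩ := Finset.exists_ne_zero_of_sum_ne_zero h1
  have h3 : δ = pnt a - pnt b := by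
    by_contra h3
    exact h2 (if_neg h3)
  rw [if_pos h3] at h2
  have ha' := Finset.mem_range.mp ha
  have hb' := Finset.mem_range.mp hb
  have hs : ∀ i, |δ i| ≤ 4 := h3 ▸ near a b
  have h4 : rad δ = (lc a : ℤ) - lc b := by
    rw [h3, rad_sub, rad_pnt (by omega), rad_pnt (by omega)]; ring
  have h6 := lc_le (a := b) (by omega)
  have h7 : rad δ + 3280 = ((lc a + 3280 - lc b : ℕ) : ℤ) := by omega
  rcases support_chk a ha' b hb' with h0 | ⟨x, hx, y, hy, hxy⟩ | h0
  · exact absurd h0 h2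
  · refine ⟨x, hx, y, hy, rad_inj hs (near _ _) ?_⟩
    rw [rad_sub, rad_pnt (by omega), rad_pnt (by omega)]
    omega
  · exact absurd ((pdf_eq hs _ h7).trans h0) h

/-- Weights of the orthogonal representation. -/
def rw0 (e : Lat × ℕ) : ℝ := sw e.2

/-- Its handle. -/
def rc0 (e : Lat × ℕ) : ℝ := ∑ a ∈ range 52, (sv e.2 a : ℝ)

/-- Its vectors. -/
def ru0 (z : Lat) (e : Lat × ℕ) : ℝ :=
  ∑ a ∈ range 52, if z = e.1 + pnt a then (sv e.2 a : ℝ) else 0

theorem total_R :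
    ∑ j ∈ range 9, (sw j : ℝ) * ((∑ a ∈ range 52, (sv j a : ℝ)) * ∑ a ∈ range 52, (sv j a : ℝ)) =
      20785 := by
  have h := total_chk
  rw [addUp_eq] at h
  simp only [addUp_eq] at h
  exact_mod_cast h

theorem ip_cc (T : Finset Lat) :
    ∑ e ∈ T ×ˢ range 9, rw0 e * (rc0 e * rc0 e) = T.card * 20785 := by
  rw [Finset.sum_product]
  simp only [rw0, rc0]
  rw [total_R]
  simp

theorem pick (T : Finset Lat) (z p : Lat) (h : z - p ∈ T) (f : Lat → ℝ) :
    ∑ t ∈ T, (if z = t + p then f t else 0) = f (z - p) := by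
  rw [Finset.sum_eq_single (z - p)]
  · simp
  · intro t _ ht
    rw [if_neg]
    intro h'
    exact ht (by rw [h']; simp)
  · intro h'; exact absurd h h'

theorem ip_cu (T : Finset Lat) (z : Lat) (hz : ∀ a < 52, z - pnt a ∈ T) :
    ∑ e ∈ T ×ˢ range 9, rw0 e * (rc0 e * ru0 z e) = 20785 := by
  rw [Finset.sum_product, Finset.sum_comm, ← total_R]
  refine Finset.sum_congr rfl fun j _ => ?_
  simp only [rw0, rc0, ru0]
  rw [← Finset.mul_sum, ← Finset.mul_sum, Finset.sum_comm]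
  congr 2
  refine Finset.sum_congr rfl fun a ha => ?_
  exact pick T z (pnt a) (hz a (Finset.mem_range.mp ha)) (fun _ => (sv j a : ℝ))

theorem ip_uu (T : Finset Lat) (z z' : Lat) (hz : ∀ a < 52, z - pnt a ∈ T) :
    ∑ e ∈ T ×ˢ range 9, rw0 e * (ru0 z e * ru0 z' e) = pdf (z - z') := by
  rw [Finset.sum_product, pdf]
  push_cast
  simp only [rw0, ru0, Finset.sum_mul_sum]
  simp only [Finset.mul_sum]
  have e1 : ∀ t : Lat, ∑ j ∈ range 9, ∑ a ∈ range 52, ∑ b ∈ range 52,
      (sw j : ℝ) * ((if z = t + pnt a then (sv j a : ℝ) else 0) *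
        if z' = t + pnt b then (sv j b : ℝ) else 0) =
      ∑ a ∈ range 52, ∑ b ∈ range 52,
        if z = t + pnt a then (if z' = t + pnt b then (gram a b : ℝ) else 0) else 0 := by
    intro t
    rw [Finset.sum_comm]
    refine Finset.sum_congr rfl fun a _ => ?_
    rw [Finset.sum_comm]
    refine Finset.sum_congr rfl fun b _ => ?_
    split_ifs
    · rw [gram, addUp_eq]; push_cast; rfl
    · simp
    · simp
    · simp
  simp only [e1]
  rw [Finset.sum_comm]
  refine Finset.sum_congr rfl fun a ha => ?_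
  rw [Finset.sum_comm]
  refine Finset.sum_congr rfl fun b _ => ?_
  rw [pick T z (pnt a) (hz a (Finset.mem_range.mp ha))
    (fun t => if z' = t + pnt b then (gram a b : ℝ) else 0)]
  refine if_congr ⟨fun h => ?_, fun h => ?_⟩ rfl rfl
  · rw [h]; abel
  · have : z' = z - (z - z') := by abel
    rw [this, h]; abel

/-- A cube of lattice points. -/
noncomputable def cube (L : ℕ) : Finset Lat :=
  Fintype.piFinset fun _ : Fin 4 => Finset.Icc (-(L : ℤ)) L

theorem mem_cube {L : ℕ} {z : Lat} : z ∈ cube L ↔ ∀ i, |z i| ≤ L := by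
  simp [cube, Fintype.mem_piFinset, abs_le]

theorem card_cube (L : ℕ) : (cube L).card = (2 * L + 1) ^ 4 := by
  rw [cube, Fintype.card_piFinset]
  simp only [Int.card_Icc, Finset.prod_const, Finset.card_univ, Fintype.card_fin]
  congr 1
  omega

theorem sub_pnt_mem {L : ℕ} {z : Lat} (hz : z ∈ cube L) (a : ℕ) : z - pnt a ∈ cube (L + 2) := by
  rw [mem_cube] at hz ⊢
  intro i
  have h1 := abs_le.mp (hz i)
  have h2 := dg_le a i
  rw [abs_le, Pi.sub_apply, pnt]
  push_cast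
  omega

/-- Distance in `K₆` minus the triangle on 3, 4, 5. -/
def dd (u v : Fin 6) : ℕ := if u = v then 0 else if 3 ≤ u.val ∧ 3 ≤ v.val then 2 else 1

/-- Coefficients of the functional of a query vertex. -/
def cf (s v : Fin 6) : ℤ := (dd v s : ℤ) - dd 0 s

theorem cf_val : ∀ s v : Fin 6, cf s v = -1 ∨ cf s v = 0 ∨ cf s v = 1 := by decide

/-- The linear functional given by a query vertex. -/
def fn (s : Fin 6) (z : Lat) : ℤ := z 0 * cf s 1 + z 1 * cf s 2 + z 2 * cf s 3 + z 3 * cf s 4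

theorem fn_sub (s : Fin 6) (x y : Lat) : fn s (x - y) = fn s x - fn s y := by
  simp only [fn, Pi.sub_apply]; ring

theorem fn_neg (s : Fin 6) (x : Lat) : fn s (-x) = -fn s x := by
  simp only [fn, Pi.neg_apply]; ring

theorem dd_eq : ∀ s x : Fin 6,
    (dd x s : ℤ) = fn s (pnt (52 + x)) + dd 0 s + (if x = 5 then 1 else 0) := by
  decide +kernel

theorem fn_sum (L : ℕ) (s : Fin 6) : ∑ z ∈ cube L, fn s z = 0 := by
  have h : ∑ z ∈ cube L, fn s z = ∑ z ∈ cube L, fn s (-z) := by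
    refine Finset.sum_equiv (Equiv.neg Lat) (fun z => ?_) (fun z _ => by simp)
    simp [mem_cube]
  simp only [fn_neg, Finset.sum_neg_distrib] at h
  omega

theorem fn_bound (L : ℕ) (s : Fin 6) (z : Lat) (hz : z ∈ cube L) :
    |fn s z| ≤ ((4 * L : ℕ) : ℤ) := by
  rw [mem_cube] at hz
  have hv : ∀ i v, |z i * cf s v| ≤ L := by
    intro i v
    have := hz i
    rcases cf_val s v with h1 | h1 | h1 <;> rw [h1] <;> simp [this]
  have h0 := abs_le.mp (hv 0 1)
  have h1 := abs_le.mp (hv 1 2)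
  have h2 := abs_le.mp (hv 2 3)
  have h3 := abs_le.mp (hv 3 4)
  rw [abs_le, fn]
  push_cast
  constructor <;> linarith [h0.1, h0.2, h1.1, h1.2, h2.1, h2.2, h3.1, h3.2]

theorem fibre (L n : ℕ) (S : Finset (Fin n → Fin 6))
    (hS : ∀ x y : Fin n → Fin 6, x ≠ y → ∃ s ∈ S, ∃ t ∈ S,
      ((∑ k, dd (x k) (s k) : ℕ) : ℤ) - (∑ k, dd (y k) (s k) : ℕ) ≠
        ((∑ k, dd (x k) (t k) : ℕ) : ℤ) - (∑ k, dd (y k) (t k) : ℕ))
    (I : Finset (Fin n → Lat)) (hI : I ⊆ Fintype.piFinset (fun _ : Fin n => cube L))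
    (hΦ : ∀ x ∈ I, ∀ y ∈ I, ∀ s ∈ S, ∑ k, fn (s k) (x k) = ∑ k, fn (s k) (y k)) :
    (I.card : ℝ) ≤ (3421 * ((cube (L + 2)).card : ℝ) / 20785) ^ n := by
  have hmem : ∀ x ∈ I, ∀ k, ∀ a < 52, x k - pnt a ∈ cube (L + 2) :=
    fun x hx k a _ => sub_pnt_mem (Fintype.mem_piFinset.mp (hI hx) k) a
  have hb := tensor_bessel n (cube (L + 2) ×ˢ range 9) rw0 rc0 ru0
    (fun e => Nat.cast_nonneg _) 3421 20785 ((cube (L + 2)).card * 20785) I
    (fun x hx k => by
      rw [ip_uu _ _ _ (hmem x hx k), sub_self, pdf_zero]; norm_num)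
    (fun x hx k => ip_cu _ _ (hmem x hx k)) (ip_cc _)
    (fun x hx y hy hxy => by
      by_contra hcon
      have h1 : ∀ k, ∃ p < 6, ∃ r < 6, x k - y k = pnt (52 + p) - pnt (52 + r) := by
        intro k
        refine pdf_support fun h0 => hcon ⟨k, ?_⟩
        rw [ip_uu _ _ _ (hmem x hx k), h0]; simp
      choose p hp r hr hpr using h1
      obtain ⟨s, hs, t, ht, hne⟩ := hS (fun k => ⟨p k, hp k⟩) (fun k => ⟨r k, hr k⟩) (fun h => by
        apply hxy
        funext k
        have h2 : p k = r k := congrArg Fin.val (congrFun h k)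
        have h3 := hpr k
        rw [h2, sub_self] at h3
        exact sub_eq_zero.mp h3)
      apply hne
      have key : ∀ q ∈ S, ((∑ k, dd ⟨p k, hp k⟩ (q k) : ℕ) : ℤ) - (∑ k, dd ⟨r k, hr k⟩ (q k) : ℕ) =
          ∑ k, ((if (⟨p k, hp k⟩ : Fin 6) = 5 then (1 : ℤ) else 0) -
            if (⟨r k, hr k⟩ : Fin 6) = 5 then (1 : ℤ) else 0) := by
        intro q hq
        have h2 := hΦ x hx y hy q hq
        have h3 : ∑ k, ((dd ⟨p k, hp k⟩ (q k) : ℤ) - dd ⟨r k, hr k⟩ (q k)) =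
            ∑ k, ((fn (q k) (x k) - fn (q k) (y k)) +
              ((if (⟨p k, hp k⟩ : Fin 6) = 5 then (1 : ℤ) else 0) -
                if (⟨r k, hr k⟩ : Fin 6) = 5 then (1 : ℤ) else 0)) := by
          refine Finset.sum_congr rfl fun k _ => ?_
          rw [← fn_sub, hpr k, fn_sub, dd_eq (q k) ⟨p k, hp k⟩, dd_eq (q k) ⟨r k, hr k⟩]
          ring
        rw [Finset.sum_add_distrib, Finset.sum_sub_distrib,
          Finset.sum_sub_distrib (f := fun k => fn (q k) (x k)), h2, sub_self, zero_add] at h3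
        push_cast
        exact h3
      exact (key s hs).trans (key t ht).symm)
  rcases Nat.eq_zero_or_pos I.card with h0 | h0
  · rw [h0, Nat.cast_zero]; positivity
  · have hc : (0 : ℝ) < I.card := by exact_mod_cast h0
    have hβ : (0 : ℝ) < 20785 ^ n := by positivity
    rw [div_pow, le_div_iff₀ hβ, mul_pow]
    rw [mul_pow, mul_pow] at hb
    have h1 : (I.card : ℝ) * 20785 ^ n * ((I.card : ℝ) * 20785 ^ n) ≤
        (3421 ^ n * ((cube (L + 2)).card : ℝ) ^ n) * ((I.card : ℝ) * 20785 ^ n) := by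
      nlinarith
    exact le_of_mul_le_mul_right h1 (mul_pos hc hβ)

/-- The growth constant, larger than six. -/
noncomputable def gro : ℝ := 20001 ^ 4 * 20785 / (3421 * 20005 ^ 4)

theorem gro_ge : (6 : ℝ) * (10116 / 10000) ≤ gro := by
  rw [gro, le_div_iff₀ (by positivity)]
  norm_num

theorem query_bound (n : ℕ) (hn : 1 ≤ n) (S : Finset (Fin n → Fin 6))
    (hS : ∀ x y : Fin n → Fin 6, x ≠ y → ∃ s ∈ S, ∃ t ∈ S,
      ((∑ k, dd (x k) (s k) : ℕ) : ℤ) - (∑ k, dd (y k) (s k) : ℕ) ≠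
        ((∑ k, dd (x k) (t k) : ℕ) : ℤ) - (∑ k, dd (y k) (t k) : ℕ)) :
    gro ^ n ≤ (3 * Real.exp ((1 + ((4 * 10000 : ℕ) : ℝ) ^ 2) / 2) * √n) ^ S.card := by
  have h := count_bound n hn (cube 10000) ⟨0, by simp [mem_cube]⟩ fn (4 * 10000)
    (fn_sum 10000) (fn_bound 10000) S _ (fibre 10000 n S hS)
  rw [card_cube, card_cube] at h
  have hA : (0 : ℝ) < (3421 * (((2 * (10000 + 2) + 1) ^ 4 : ℕ) : ℝ) / 20785) ^ n := by
    positivity
  have hW : gro ^ n * (3421 * (((2 * (10000 + 2) + 1) ^ 4 : ℕ) : ℝ) / 20785) ^ n =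
      ((((2 * 10000 + 1) ^ 4 : ℕ) : ℝ)) ^ n := by
    rw [← mul_pow, gro]
    congr 1
    push_cast
    field_simp
    norm_num
  rw [← hW, mul_comm] at h
  exact le_of_mul_le_mul_left h hA

theorem log_gro : 201 / 200 * Real.log 6 < Real.log gro := by
  have h1 : Real.log (6 * (10116 / 10000)) ≤ Real.log gro := Real.log_le_log (by norm_num) gro_ge
  rw [Real.log_mul (by norm_num) (by norm_num)] at h1
  have h2 : 1 - (10116 / 10000 : ℝ)⁻¹ ≤ Real.log (10116 / 10000) :=
    Real.one_sub_inv_le_log_of_pos (by norm_num)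
  have h3 : Real.log 6 ≤ Real.log (2 ^ 3) := Real.log_le_log (by norm_num) (by norm_num)
  rw [Real.log_pow] at h3
  have h4 := Real.log_two_lt_d9
  push_cast at h3
  norm_num at h2
  linarith

theorem large_n (K : ℝ) (hK : 0 < K) :
    ∀ᶠ n : ℕ in atTop, ∀ k : ℕ, gro ^ n ≤ (K * √n) ^ k →
      201 / 100 * n / Real.logb 6 n ≤ k := by
  have hl : 0 < Real.log 6 := Real.log_pos (by norm_num)
  have hlog : Tendsto (fun n : ℕ => Real.log n) atTop atTop :=
    Real.tendsto_log_atTop.comp tendsto_natCast_atTop_atTop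
  have h1 : Tendsto (fun n : ℕ => Real.log K / Real.log n) atTop (𝓝 0) :=
    tendsto_const_nhds.div_atTop hlog
  have h2 : Tendsto (fun n : ℕ => 201 / 100 * Real.log 6 * (Real.log K / Real.log n + 1 / 2))
      atTop (𝓝 (201 / 100 * Real.log 6 * (0 + 1 / 2))) :=
    tendsto_const_nhds.mul (h1.add tendsto_const_nhds)
  have h3 : 201 / 100 * Real.log 6 * (0 + 1 / 2) < Real.log gro := by
    have := log_gro
    linarith
  have h4 : Tendsto (fun n : ℕ => Real.log K / Real.log n + 1 / 2) atTop (𝓝 (0 + 1 / 2)) :=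
    h1.add tendsto_const_nhds
  filter_upwards [h2.eventually (gt_mem_nhds h3), eventually_ge_atTop 2,
    h4.eventually (lt_mem_nhds (show (0 : ℝ) < 0 + 1 / 2 by norm_num))] with n h5 hn h6 k hk
  have hn' : (2 : ℝ) ≤ n := by exact_mod_cast hn
  have hln : 0 < Real.log n := Real.log_pos (by linarith)
  have hs : 0 < √(n : ℝ) := Real.sqrt_pos.mpr (by linarith)
  have hW : (0 : ℝ) < gro := lt_of_lt_of_le (by norm_num) gro_ge
  have h7 := Real.log_le_log (pow_pos hW n) hk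
  rw [Real.log_pow, Real.log_pow, Real.log_mul hK.ne' hs.ne', Real.log_sqrt (by linarith)] at h7
  have h8 : Real.log K + Real.log n / 2 = Real.log n * (Real.log K / Real.log n + 1 / 2) := by
    field_simp
  rw [h8] at h7
  set t := Real.log K / Real.log n + 1 / 2 with ht
  have h9 : (n : ℝ) * (201 / 100 * Real.log 6 * t) ≤ k * (Real.log n * t) :=
    le_trans (mul_le_mul_of_nonneg_left h5.le (by linarith)) h7
  have h10 : (n : ℝ) * (201 / 100 * Real.log 6) ≤ k * Real.log n := by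
    refine le_of_mul_le_mul_right ?_ h6
    linarith
  rw [Real.logb, div_div_eq_mul_div, div_le_iff₀ hln]
  linarith

end Pool.Agent.FS.K6K3
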